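import Pool.Agent.Helper5.NE.Stmts

/-! Packet P11 of MP_d99be0_an. -/

set_option autoImplicit false

namespace Pool.Agent.Helper5.NE

open scoped InnerProductSpace ComplexConjugate ENNReal Topology
open Filter

theorem killEx (h1 : SelStmt) (h2 : QEFormStmt) : KillExStmt := by
  classical
  intro A U hA hU T hT s x0 y0 hne
  set l1 := lm U T (RW.Rs s y0) x0 with hl1
  set l4 := lm U T y0 (RW.Rs s x0) with hl4
  set z : ℂ := (l1 - l4) / 2 with hz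
  have hz0 : z ≠ 0 := div_ne_zero (sub_ne_zero.2 hne) (by norm_num)
  obtain ⟨m, hm, w, hw⟩ := h2 (‖z‖ / 16) (by positivity)
  obtain ⟨b, inj, mem, hb⟩ := h1 A U hA hU T hT {x0, y0, RW.Rs s x0, RW.Rs s y0} m (fun n => n + 5)
  let bd : BD A := ⟨s, m, fun n => n + 5, fun n => w (n + 5), b, inj, mem⟩
  refine ⟨bd, z, ⟨hz0, hm, fun n => Nat.le_add_left 5 n, ?_, ?_⟩⟩
  · intro D _ _
    exact (tendsto_add_atTop_nat 5).eventually (hw D)
  · intro n p p'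
    have e1 := hb n (false, p) (false, p') x0 (by simp) (RW.Rs s y0) (by simp)
    have e2 := hb n (true, p) (false, p') (RW.Rs s x0) (by simp) (RW.Rs s y0) (by simp)
    have e3 := hb n (false, p) (true, p') x0 (by simp) y0 (by simp)
    have e4 := hb n (true, p) (true, p') (RW.Rs s x0) (by simp) y0 (by simp)
    rw [if_neg (by simp), sub_zero] at e2 e3
    rw [← hl1] at e1
    rw [← hl4] at e4
    change ‖(1 / 2 : ℂ) * (T (RW.Rs s y0, b ⟨n, false, p'⟩) (x0, b ⟨n, false, p⟩)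
      + T (RW.Rs s y0, b ⟨n, false, p'⟩) (RW.Rs s x0, b ⟨n, true, p⟩)
      - T (y0, b ⟨n, true, p'⟩) (x0, b ⟨n, false, p⟩)
      - T (y0, b ⟨n, true, p'⟩) (RW.Rs s x0, b ⟨n, true, p⟩))
      - (if p' = p then z else 0)‖ ≤ 2 / ((n : ℝ) + 1)
    set t1 := T (RW.Rs s y0, b ⟨n, false, p'⟩) (x0, b ⟨n, false, p⟩)
    set t2 := T (RW.Rs s y0, b ⟨n, false, p'⟩) (RW.Rs s x0, b ⟨n, true, p⟩)
    set t3 := T (y0, b ⟨n, true, p'⟩) (x0, b ⟨n, false, p⟩)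
    set t4 := T (y0, b ⟨n, true, p'⟩) (RW.Rs s x0, b ⟨n, true, p⟩)
    have key : ∀ a c : ℂ, ‖t1 - a‖ ≤ 1 / ((n : ℝ) + 1) → ‖t4 - c‖ ≤ 1 / ((n : ℝ) + 1) →
        ‖(1 / 2 : ℂ) * (t1 + t2 - t3 - t4) - (a - c) / 2‖ ≤ 2 / ((n : ℝ) + 1) := by
      intro a c ha hc
      have h3 : (1 / 2 : ℂ) * (t1 + t2 - t3 - t4) - (a - c) / 2 =
          (1 / 2 : ℂ) * ((t1 - a) + t2 - t3 - (t4 - c)) := by ring
      rw [h3, norm_mul]
      have h4 : ‖(t1 - a) + t2 - t3 - (t4 - c)‖ ≤ 4 * (1 / ((n : ℝ) + 1)) := by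
        calc _ ≤ ‖(t1 - a) + t2 - t3‖ + ‖t4 - c‖ := norm_sub_le _ _
          _ ≤ (‖(t1 - a) + t2‖ + ‖t3‖) + ‖t4 - c‖ := by gcongr; exact norm_sub_le _ _
          _ ≤ ((‖t1 - a‖ + ‖t2‖) + ‖t3‖) + ‖t4 - c‖ := by gcongr; exact norm_add_le _ _
          _ ≤ _ := by linarith
      have h5 : ‖(1 / 2 : ℂ)‖ = 1 / 2 := by simp
      rw [h5]
      calc _ ≤ 1 / 2 * (4 * (1 / ((n : ℝ) + 1))) := by gcongr
        _ = _ := by ring
    by_cases hp : p' = p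
    · rw [if_pos (by rw [hp])] at e1 e4
      rw [if_pos hp]
      exact key l1 l4 e1 e4
    · rw [if_neg (by simpa using hp)] at e1 e4
      rw [if_neg hp]
      have := key 0 0 e1 e4
      simpa using this

end Pool.Agent.Helper5.NE
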